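import Pool.Agent.Y489.SP.Stm
import Pool.Agent.Y438.HS.DL

/-!
Project SP, job SP-DEGP (helper983): a fibre of a map close to the identity cannot be permuted
cyclically.
-/

set_option autoImplicit false

open MeasureTheory Set Metric Filter Topology
open scoped ENNReal NNReal

namespace Pool.Agent.Y983.SP.DEGP

open Pool.Agent.Y485.HS Pool.Agent.Y489.SP

/-- a smooth map which is the identity outside a ball is Lipschitz -/
theorem lip {n : ℕ} {F : E n → E n} {R : ℝ} (hF : ContDiff ℝ 1 F) (hR : ∀ x, R ≤ ‖x‖ → F x = x) :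
    ∃ K : ℝ≥0, LipschitzWith K F := by
  have hc : Continuous (fderiv ℝ F) := hF.continuous_fderiv one_ne_zero
  obtain ⟨C, hC⟩ := (isCompact_closedBall (0 : E n) R).exists_bound_of_continuousOn hc.continuousOn
  refine ⟨Real.toNNReal (max C 1),
    lipschitzWith_of_nnnorm_fderiv_le (hF.differentiable one_ne_zero) fun x => ?_⟩
  rw [← NNReal.coe_le_coe, coe_nnnorm, Real.coe_toNNReal _ (le_max_of_le_right zero_le_one)]
  by_cases hx : ‖x‖ ≤ R
  · exact (hC x (mem_closedBall_zero_iff.mpr hx)).trans (le_max_left _ _)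
  · push Not at hx
    have h1 : F =ᶠ[𝓝 x] id := by
      have h2 : {z : E n | R < ‖z‖} ∈ 𝓝 x := (isOpen_lt continuous_const continuous_norm).mem_nhds hx
      filter_upwards [h2] with z hz
      exact hR z (le_of_lt hz)
    rw [h1.fderiv_eq, fderiv_id]
    exact ContinuousLinearMap.norm_id_le.trans (le_max_right _ _)

/-- finitely many disjoint compact sets have disjoint neighbourhoods -/
theorem exists_thick {n p : ℕ} [NeZero p] {W : ZMod p → Set (E n)} (hW : ∀ i, IsCompact (W i))
    (hd : ∀ i j, i ≠ j → Disjoint (W i) (W j)) :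
    ∃ η : ℝ, 0 < η ∧ η ≤ 1 / 2 ∧ ∀ i j, i ≠ j → Disjoint (thickening η (W i)) (thickening η (W j)) := by
  have h1 : ∀ q : ZMod p × ZMod p, ∃ δ : ℝ, 0 < δ ∧
      (q.1 ≠ q.2 → Disjoint (thickening δ (W q.1)) (thickening δ (W q.2))) := by
    intro q
    by_cases h : q.1 = q.2
    · exact ⟨1, one_pos, fun hn => absurd h hn⟩
    · obtain ⟨δ, h2, h3⟩ := (hd q.1 q.2 h).exists_thickenings (hW q.1) (hW q.2).isClosed
      exact ⟨δ, h2, fun _ => h3⟩
  choose δ hδ hδd using h1
  obtain ⟨m, hm⟩ := Finite.exists_min δ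
  refine ⟨min (1 / 2) (δ m), lt_min (by norm_num) (hδ m), min_le_left _ _, fun i j hij => ?_⟩
  exact (hδd (i, j) hij).mono
    (thickening_mono ((min_le_right _ _).trans (hm (i, j))) _)
    (thickening_mono ((min_le_right _ _).trans (hm (i, j))) _)

theorem t_DEGP (hAPX : S_APX) (hHOM : S_HOMT) (hCOM : S_COMPT) (hINT : S_INT) : S_DEGP := by
  intro n hn p hp F τ hFc hτc hFd hτd hFτ y hy W hWc hWd hWU hWτ
  have : NeZero p := ⟨by omega⟩
  have hy1 : ‖y‖ < 1 := mem_ball_zero_iff.mp hy
  have hBB : ∀ x : E n, ‖x‖ ≤ 4 → x ∈ BB n := fun x hx => mem_closedBall_zero_iff.mpr hx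
  have hc3 : ∀ x : E n, ‖x‖ ≤ 3 → x ∈ closedBall (0 : E n) 3 := fun x hx =>
    mem_closedBall_zero_iff.mpr hx
  have hnd : ∀ a b : E n, ‖a‖ ≤ ‖b‖ + dist a b := fun a b => by
    rw [dist_eq_norm]
    calc ‖a‖ = ‖b + (a - b)‖ := by congr 1; abel
      _ ≤ ‖b‖ + ‖a - b‖ := norm_add_le _ _
  -- the points of the sets `W i`
  have hWmem : ∀ i, ∀ x ∈ W i, ‖x‖ ≤ 3 ∧ F x = y := by
    intro i x hx
    have h1 : x ∈ ⋃ i, W i := mem_iUnion.mpr ⟨i, hx⟩
    rw [hWU] at h1
    exact ⟨mem_closedBall_zero_iff.mp h1.1, h1.2⟩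
  have hWn : ∀ i, ∀ x ∈ W i, ‖x‖ ≤ 5 / 4 := by
    intro i x hx
    obtain ⟨h1, h2⟩ := hWmem i x hx
    have h3 := hFd x (hBB x (by linarith))
    have h4 := hnd x (F x)
    rw [dist_comm] at h4
    rw [h2] at h3 h4
    linarith
  obtain ⟨η0, hη0, hη02, hη0d⟩ := exists_thick hWc hWd
  obtain ⟨η', hη', hη'u⟩ := Metric.uniformContinuousOn_iff.mp
    ((isCompact_closedBall (0 : E n) 4).uniformContinuousOn_of_continuous hτc) (η0 / 4) (by positivity)
  obtain ⟨η1, hη1, hη1a, hη1b⟩ : ∃ η1 : ℝ, 0 < η1 ∧ η1 ≤ η' ∧ η1 ≤ η0 / 8 :=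
    ⟨min η' (η0 / 8), lt_min hη' (by positivity), min_le_left _ _, min_le_right _ _⟩
  let U : ZMod p → Set (E n) := fun i => thickening η1 (W i)
  let V : ZMod p → Set (E n) := fun i => thickening (η0 / 2) (W i)
  have hUo : ∀ i, IsOpen (U i) := fun i => isOpen_thickening
  have hVb : ∀ i, Bornology.IsBounded (V i) := fun i => (hWc i).isBounded.thickening
  have hUb : ∀ i, Bornology.IsBounded (U i) := fun i => (hWc i).isBounded.thickening
  have hU0 : ∀ i, U i ⊆ thickening η0 (W i) := fun i => thickening_mono (by linarith) _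
  have hV0 : ∀ i, V i ⊆ thickening η0 (W i) := fun i => thickening_mono (by linarith) _
  have huniq : ∀ i j x, x ∈ thickening η0 (W i) → x ∈ thickening η0 (W j) → i = j := by
    intro i j x hi hj
    by_contra hij
    exact Set.disjoint_left.mp (hη0d i j hij) hi hj
  -- (3)
  obtain ⟨δ, hδ, hδ8, hδF⟩ : ∃ δ : ℝ, 0 < δ ∧ δ ≤ 1 / 8 ∧ ∀ x : E n, ‖x‖ ≤ 3 →
      dist (F x) y < 4 * δ → ∃ j, x ∈ U j := by
    have hK : IsCompact (closedBall (0 : E n) 3 \ ⋃ i, U i) :=
      (isCompact_closedBall (0 : E n) 3).inter_right (isOpen_iUnion hUo).isClosed_compl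
    have hcont : ContinuousOn (fun x => dist (F x) y) (closedBall (0 : E n) 3 \ ⋃ i, U i) := by
      have h1 : ContinuousOn F (closedBall (0 : E n) 3 \ ⋃ i, U i) := by
        apply hFc.mono
        intro x hx
        exact hBB x (by linarith [mem_closedBall_zero_iff.mp hx.1])
      have h2 : Continuous (fun z : E n => dist z y) := by fun_prop
      exact h2.comp_continuousOn h1
    rcases (closedBall (0 : E n) 3 \ ⋃ i, U i).eq_empty_or_nonempty with he | hne
    · refine ⟨1 / 8, by norm_num, le_rfl, fun x hx _ => ?_⟩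
      by_contra hcon
      have h1 : x ∈ closedBall (0 : E n) 3 \ ⋃ i, U i :=
        ⟨hc3 x hx, fun h => hcon (mem_iUnion.mp h)⟩
      rw [he] at h1
      exact h1
    · obtain ⟨x0, hx0, hmin⟩ := hK.exists_isMinOn hne hcont
      have hpos : 0 < dist (F x0) y := by
        rw [dist_pos]
        intro h
        have h1 : x0 ∈ ⋃ i, W i := by
          rw [hWU]
          exact ⟨hx0.1, h⟩
        obtain ⟨i, hi⟩ := mem_iUnion.mp h1
        exact hx0.2 (mem_iUnion.mpr ⟨i, self_subset_thickening hη1 _ hi⟩)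
      refine ⟨min (1 / 8) (dist (F x0) y / 4), lt_min (by norm_num) (by positivity),
        min_le_left _ _, fun x hx hlt => ?_⟩
      by_contra hcon
      have h1 : x ∈ closedBall (0 : E n) 3 \ ⋃ i, U i :=
        ⟨hc3 x hx, fun h => hcon (mem_iUnion.mp h)⟩
      have h2 : dist (F x0) y ≤ dist (F x) y := hmin h1
      have h3 := min_le_right (1 / 8) (dist (F x0) y / 4)
      linarith
  -- (4)
  obtain ⟨F0, hF0s, hF06, hF0F, hF0d⟩ := hAPX n F hFc hFd (δ / 4) (by positivity)
  obtain ⟨ε1, hε1, hε1u⟩ := Metric.uniformContinuousOn_iff.mp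
    ((isCompact_closedBall (0 : E n) 4).uniformContinuousOn_of_continuous
      hF0s.continuous.continuousOn) δ hδ
  obtain ⟨τ0, hτ0s, hτ06, hτ0τ, hτ0d⟩ := hAPX n τ hτc hτd (min (ε1 / 2) (η0 / 8))
    (lt_min (by positivity) (by positivity))
  let F1 : E n → E n := fun z => F0 (τ0 z)
  have hF1s : ContDiff ℝ 1 F1 := hF0s.comp hτ0s
  have hF1F : ∀ x : E n, ‖x‖ ≤ 5 / 2 → dist (F1 x) (F x) ≤ 5 / 4 * δ := by
    intro x hx
    have h1 := hτd x (hBB x (by linarith))
    have h2 := hτ0τ x (hc3 x (by linarith))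
    have h3 := hτ0d x
    have h4 : ‖τ x‖ ≤ 3 := by linarith [hnd (τ x) x]
    have h5 : ‖τ0 x‖ ≤ 3 := by linarith [hnd (τ0 x) x]
    have h6 : dist (F0 (τ0 x)) (F0 (τ x)) < δ :=
      hε1u _ (hBB _ (by linarith)) _ (hBB _ (by linarith))
        (by linarith [min_le_left (ε1 / 2) (η0 / 8)])
    have h7 := hF0F (τ x) (hc3 _ h4)
    have h8 := hFτ x (hc3 x (by linarith))
    calc dist (F1 x) (F x) ≤ dist (F0 (τ0 x)) (F0 (τ x)) + dist (F0 (τ x)) (F x) :=
          dist_triangle _ _ _
      _ ≤ δ + δ / 4 := by rw [h8] at h7; linarith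
      _ = 5 / 4 * δ := by ring
  -- points of `V i` outside `U i`
  have hVU : ∀ i, ∀ x ∈ V i \ U i, ‖x‖ ≤ 5 / 2 ∧ 4 * δ ≤ dist (F x) y := by
    intro i x hx
    obtain ⟨w, hw, hxw⟩ := mem_thickening_iff.mp hx.1
    have h1 := hWn i w hw
    have h2 : ‖x‖ ≤ 5 / 2 := by linarith [hnd x w]
    refine ⟨h2, ?_⟩
    by_contra hcon
    push Not at hcon
    obtain ⟨j, hj⟩ := hδF x (by linarith) hcon
    have hij := huniq i j x (hV0 i hx.1) (hU0 j hj)
    rw [← hij] at hj
    exact hx.2 hj
  have hthick : ∀ i, thickening (η0 / 2 - η1) (U i) ⊆ V i := by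
    intro i
    have h1 := thickening_thickening_subset (η0 / 2 - η1) η1 (W i)
    rwa [sub_add_cancel] at h1
  -- (5)
  have hd : ∀ i, ∃ d : ℤ, ∀ φ : E n → ℝ, Continuous φ → (∀ w, δ / 2 ≤ dist w y → φ w = 0) →
      ∫ x in U i, φ (F0 x) * (fderiv ℝ F0 x).det = d * ∫ w, φ w := by
    intro i
    refine hINT n F0 6 hF0s hF06 (U i) (V i) (η0 / 2 - η1) δ y (hUo i) (hVb i) (by linarith) hδ
      (hthick i) ?_
    intro x hx
    obtain ⟨h1, h2⟩ := hVU i x hx
    have h3 := hF0F x (hc3 x (by linarith))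
    have h4 := dist_triangle (F x) (F0 x) y
    rw [dist_comm (F x) (F0 x)] at h4
    linarith
  choose d hd using hd
  -- (6)
  let φ : E n → ℝ := fun w => max 0 (δ / 2 - dist w y)
  have hφc : Continuous φ := by fun_prop
  have hφ0 : ∀ w, δ / 2 ≤ dist w y → φ w = 0 := fun w hw => max_eq_left (by linarith)
  have hφn : ∀ w, φ w ≠ 0 → dist w y < δ / 2 := by
    intro w hw
    by_contra hcon
    exact hw (hφ0 w (not_lt.mp hcon))
  have hφs : HasCompactSupport φ := by
    apply HasCompactSupport.of_support_subset_isCompact (isCompact_closedBall y (δ / 2))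
    intro w hw
    exact mem_closedBall.mpr (hφn w hw).le
  have hφp : 0 < ∫ w, φ w := by
    apply hφc.integral_pos_of_hasCompactSupport_nonneg_nonzero (x := y) hφs
    · intro w
      exact le_max_left _ _
    · change max 0 (δ / 2 - dist y y) ≠ 0
      rw [dist_self, sub_zero, max_eq_right (by positivity)]
      positivity
  have hstep : ∀ i, d i = d (i + 1) := by
    intro i
    have e1 : ∫ x in U i, φ (F1 x) * (fderiv ℝ F1 x).det =
        ∫ x in U i, φ (F0 x) * (fderiv ℝ F0 x).det := by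
      refine hHOM n F0 F1 6 hF0s hF1s hF06 (U i) (V i) (η0 / 2 - η1) δ y (hUo i) (hVb i)
        (by linarith) hδ (hthick i) ?_ φ hφc (fun w hw => hφ0 w (by linarith))
      intro x hx t ht
      obtain ⟨h1, h2⟩ := hVU i x hx
      have h3 := hF0F x (hc3 x (by linarith))
      have h4 := hF1F x h1
      have h5 : dist (F0 x + t • (F1 x - F0 x)) (F x) ≤ 5 / 4 * δ := by
        rw [dist_eq_norm] at h3 h4 ⊢
        have h6 : F0 x + t • (F1 x - F0 x) - F x = (1 - t) • (F0 x - F x) + t • (F1 x - F x) := by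
          module
        rw [h6]
        calc ‖(1 - t) • (F0 x - F x) + t • (F1 x - F x)‖
            ≤ ‖(1 - t) • (F0 x - F x)‖ + ‖t • (F1 x - F x)‖ := norm_add_le _ _
          _ = (1 - t) * ‖F0 x - F x‖ + t * ‖F1 x - F x‖ := by
              rw [norm_smul, norm_smul, Real.norm_of_nonneg (by linarith [ht.2]),
                Real.norm_of_nonneg ht.1]
          _ ≤ (1 - t) * (5 / 4 * δ) + t * (5 / 4 * δ) :=
              add_le_add (mul_le_mul_of_nonneg_left (by linarith) (by linarith [ht.2]))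
                (mul_le_mul_of_nonneg_left h4 ht.1)
          _ = 5 / 4 * δ := by ring
      have h7 := dist_triangle (F x) (F0 x + t • (F1 x - F0 x)) y
      rw [dist_comm (F x) (F0 x + t • (F1 x - F0 x))] at h7
      linarith
    have e2 : ∫ x in U i, φ (F1 x) * (fderiv ℝ F1 x).det =
        ∫ x in U (i + 1), φ (F0 x) * (fderiv ℝ F0 x).det := by
      refine hCOM n F0 τ0 6 hF0s hτ0s hF06 hτ06 (U i) (U (i + 1))
        (closure (U (i + 1)) ∩ {x | dist (F0 x) y ≤ δ}) φ (hUo i) (hUo _) ?_ ?_ (hUb _) hφc ?_ ?_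
      · exact isClosed_closure.inter
          (isClosed_le (hF0s.continuous.dist continuous_const) continuous_const)
      · rintro x ⟨hx1, hx2⟩
        by_contra hcon
        have h1 : x ∈ V (i + 1) :=
          cthickening_subset_thickening' (by positivity) (by linarith) _
            (closure_thickening_subset_cthickening _ _ hx1)
        obtain ⟨h2, h3⟩ := hVU (i + 1) x ⟨h1, hcon⟩
        have h4 := hF0F x (hc3 x (by linarith))
        have h5 := dist_triangle (F x) (F0 x) y
        rw [dist_comm (F x) (F0 x)] at h5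
        have h6 : dist (F0 x) y ≤ δ := hx2
        linarith
      · intro x hx hφx
        refine ⟨subset_closure hx, ?_⟩
        have h1 := hφn _ hφx
        change dist (F0 x) y ≤ δ
        linarith
      · intro x hφx
        have h1 := hφn _ hφx
        have h2 := hF0d (τ0 x)
        have h3 : ‖τ0 x‖ ≤ 13 / 8 := by
          have h4 := hnd (τ0 x) (F0 (τ0 x))
          have h5 := hnd (F0 (τ0 x)) y
          rw [dist_comm] at h4
          linarith
        have h4 : ‖x‖ ≤ 17 / 8 := by
          have h5 := hnd x (τ0 x)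
          rw [dist_comm] at h5
          linarith [hτ0d x]
        -- the image point
        have hz : dist (F (τ0 x)) y < 4 * δ := by
          have h5 := hF0F (τ0 x) (hc3 _ (by linarith))
          have h6 := dist_triangle (F (τ0 x)) (F0 (τ0 x)) y
          rw [dist_comm (F (τ0 x)) (F0 (τ0 x))] at h6
          linarith
        have hx4 : dist (F x) y < 4 * δ := by
          have h5 := hF1F x (by linarith)
          have h6 := dist_triangle (F x) (F1 x) y
          rw [dist_comm (F x) (F1 x)] at h6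
          have h7 : dist (F1 x) y < δ / 2 := h1
          linarith
        obtain ⟨j, hj⟩ := hδF (τ0 x) (by linarith) hz
        obtain ⟨l, hl⟩ := hδF x (by linarith) hx4
        have hjl : j = l + 1 := by
          obtain ⟨w, hw, hxw⟩ := mem_thickening_iff.mp hl
          have h5 : dist (τ x) (τ w) < η0 / 4 :=
            hη'u x (hBB x (by linarith)) w (hBB w (by linarith [hWn l w hw]))
              (lt_of_lt_of_le hxw hη1a)
          have h6 := hτ0τ x (hc3 x (by linarith))
          have h7 : τ0 x ∈ thickening η0 (W (l + 1)) := by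
            refine mem_thickening_iff.mpr ⟨τ w, hWτ l w hw, ?_⟩
            have h8 := dist_triangle (τ0 x) (τ x) (τ w)
            have h9 := min_le_right (ε1 / 2) (η0 / 8)
            linarith
          exact huniq _ _ _ (hU0 j hj) h7
        constructor
        · intro hxi
          have h5 : i = l := huniq _ _ _ (hU0 i hxi) (hU0 l hl)
          rw [h5, ← hjl]
          exact hj
        · intro hzi
          have h5 : i + 1 = j := huniq _ _ _ (hU0 _ hzi) (hU0 j hj)
          have h6 : i = l := by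
            rw [hjl] at h5
            exact add_right_cancel h5
          rw [h6]
          exact hl
    have e3 : (d i : ℝ) * ∫ w, φ w = (d (i + 1) : ℝ) * ∫ w, φ w := by
      rw [← hd i φ hφc hφ0, ← hd (i + 1) φ hφc hφ0, ← e1, e2]
    have e4 : (d i : ℝ) = d (i + 1) := mul_right_cancel₀ hφp.ne' e3
    exact_mod_cast e4
  -- (7)
  have hall : ∀ i, d i = d 0 := by
    have h1 : ∀ k : ℕ, d (k : ZMod p) = d 0 := by
      intro k
      induction k with
      | zero => rw [Nat.cast_zero]
      | succ k ih => rw [Nat.cast_succ, ← hstep, ih]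
    intro i
    have h2 := h1 i.val
    rwa [ZMod.natCast_zmod_val] at h2
  -- (8)
  obtain ⟨K, hK⟩ := lip hF0s hF06
  have hDL := Pool.Agent.Y438.HS.dl n F0 K 6 (by norm_num) hK hF06 φ hφc hφs
  have hG : Continuous (fun x => φ (F0 x) * (fderiv ℝ F0 x).det) :=
    (hφc.comp hF0s.continuous).mul
      (ContinuousLinearMap.continuous_det.comp (hF0s.continuous_fderiv one_ne_zero))
  have e1 : ∫ x in ⋃ i, U i, φ (F0 x) * (fderiv ℝ F0 x).det =
      ∫ x, φ (F0 x) * (fderiv ℝ F0 x).det := by
    apply setIntegral_eq_integral_of_forall_compl_eq_zero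
    intro x hx
    by_contra hne
    have h1 : φ (F0 x) ≠ 0 := left_ne_zero_of_mul hne
    have h2 := hφn _ h1
    have h3 := hF0d x
    have h4 : ‖x‖ ≤ 3 := by
      have h4 := hnd x (F0 x)
      have h5 := hnd (F0 x) y
      rw [dist_comm] at h4
      linarith
    have h5 := hF0F x (hc3 x h4)
    have h6 := dist_triangle (F x) (F0 x) y
    rw [dist_comm (F x) (F0 x)] at h6
    obtain ⟨j, hj⟩ := hδF x h4 (by linarith)
    exact hx (mem_iUnion.mpr ⟨j, hj⟩)
  have e2 : ∫ x in ⋃ i, U i, φ (F0 x) * (fderiv ℝ F0 x).det =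
      ∑ i, ∫ x in U i, φ (F0 x) * (fderiv ℝ F0 x).det := by
    apply integral_iUnion_fintype
    · exact fun i => (hUo i).measurableSet
    · intro i j hij
      exact (hη0d i j hij).mono (hU0 i) (hU0 j)
    · intro i
      have h1 : IntegrableOn (fun x => φ (F0 x) * (fderiv ℝ F0 x).det) (closure (U i)) :=
        hG.continuousOn.integrableOn_compact (hUb i).isCompact_closure
      exact h1.mono_set subset_closure
  have e3 : ∑ i, ∫ x in U i, φ (F0 x) * (fderiv ℝ F0 x).det = (p : ℝ) * (d 0 * ∫ w, φ w) := by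
    rw [Finset.sum_congr rfl fun i _ => hd i φ hφc hφ0, Finset.sum_congr rfl fun i _ => by
      rw [hall i], Finset.sum_const, Finset.card_univ, ZMod.card, nsmul_eq_mul]
  rw [← e1, e2, e3] at hDL
  have e4 : ((p : ℝ) * d 0) * ∫ w, φ w = 1 * ∫ w, φ w := by rw [one_mul, mul_assoc]; exact hDL
  have e5 : (p : ℝ) * d 0 = 1 := mul_right_cancel₀ hφp.ne' e4
  have e6 : (p : ℤ) * d 0 = 1 := by exact_mod_cast e5
  have e7 : (p : ℤ) ∣ 1 := Dvd.intro _ e6
  have e8 := Int.le_of_dvd one_pos e7
  omega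

end Pool.Agent.Y983.SP.DEGP

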